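import Pool.Agent.H61.KV.TE

/-!
# Kuiper board KV: row EXM, there is a minimal face
-/

open Topology Set
open Pool.Agent.H59 Pool.Agent.H64.LB Pool.Agent.H61.KU
open scoped unitInterval

namespace Pool.Agent.H92.KV.EXM

open Pool.Agent.H61.KV

theorem two_points {V : Type} [NormedAddCommGroup V] [NormedSpace ℝ V] [FiniteDimensional ℝ V]
    (m : PN 2 → V) (hm : Cfg m) : ∃ x y : PN 2, x ≠ y := by
  by_contra hcon
  push Not at hcon
  have hs : (range m).Subsingleton := by
    rintro _ ⟨x, rfl⟩ _ ⟨y, rfl⟩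
    rw [hcon x y]
  have h9 := hm.rank
  have hsp := hm.span
  rcases hs.eq_empty_or_singleton with h | ⟨v, h⟩
  · rw [h, Submodule.span_empty] at hsp
    have h1 : Module.finrank ℝ (⊤ : Submodule ℝ V) = 9 := by rw [finrank_top]; exact h9
    rw [← hsp, finrank_bot] at h1
    omega
  · rw [h] at hsp
    have h1 : Module.finrank ℝ (⊤ : Submodule ℝ V) = 9 := by rw [finrank_top]; exact h9
    rw [← hsp] at h1
    have h2 : Module.finrank ℝ (Submodule.span ℝ ({v} : Set V)) ≤ 1 := by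
      have := finrank_span_le_card (R := ℝ) ({v} : Set V)
      simpa using this
    omega

theorem pf_EXM (h1 : T_CNC) (h2 : T_MNS) (h3 : T_FCB) : T_EXM := by
  intro V _ _ _ m hm hN
  obtain ⟨x, y, hxy⟩ := two_points m hm
  obtain ⟨a, b, ha, hb, hab⟩ := hN x y hxy
  obtain ⟨hcc, -, hmem, -, -, -, -, -⟩ := h1 V m hm
  have hq : a • m x + b • m y ∈ Cn m :=
    hcc.add _ (hcc.smul a ha.le _ (hmem x)) _ (hcc.smul b hb.le _ (hmem y))
  have hF := (h3 V (Cn m) (a • m x + b • m y) hcc hq).1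
  obtain ⟨p, -, hp⟩ := h2 V m hm _ hq (fun h => hab (h hF))
  exact ⟨p, hp⟩

end Pool.Agent.H92.KV.EXM
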